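import Pool.Agent.H435.GB.Exact

/-!
MP_70ba79_ag, Q1: degrees of the maps from affine curves to generic pairs, in the borderline case;
all generic log surfaces of log general type; the exact exceptional set.

Let `k` be an algebraically closed field of characteristic `0`, and let `F_a`, for `a` in a finite
set `A`, be forms of degrees `d_a > 0` in `n + 1` variables over `k` whose coefficients are, for all
`a` together, algebraically independent over a field `k0` contained in `k`. Let `C` be a proper
subset of `A`. Let `V` be the complete intersection `F_c = 0`, `c ∈ C`, in projective space of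
dimension `n` (which is all of projective space for empty `C`), let `D` be the nonempty union of the
hypersurfaces `F_b = 0`, `b ∉ C`, and let `X = V ∖ D`, an affine variety. The canonical bundle of the
pair `(V, D)` is `O(∑ d_a - n - 1)`.

An exceptional line is a line contained in `V` that meets `D` in at most two points.

Suppose that `3 n + 2 ≤ 2 ∑ d_a + |C|`. (For `dim V = n - |C| = 2`, this is equivalent to
`∑ d_a ≥ n + 2`, that is, to the pair being of log general type. So the theorem covers all generic
log surfaces of this kind that are of log general type. The smallest ones, with canonical bundle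
`O(1)`, are: the plane without a quartic, without a line and a cubic, without two conics, etc.; a
quadric surface without a cubic section, etc.; a cubic surface without a quadric section, etc.; a
quartic surface, or a K3 surface of degree 6 or 8, without a hyperplane section.) There is a constant
`B`, which depends only on `n`, the degrees and `C`, such that:

(1) for every morphism `f` from a smooth affine curve (with smooth completion of genus `g`, and with
    `s` points removed) to `X`, `deg f ≤ B max(2 g - 2 + s, 0)`, or the image of `f` is in the union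
    of the exceptional lines (more precisely: the generic point of the curve is mapped to an
    exceptional line over the algebraic closure of its function field);
(2) every closed subvariety `Y` of `X` of positive dimension `w ≥ 2 n + 2 - (∑ d_a + |C|)`, for
    example `Y = X` if `dim V ≥ 1`, is of log general type, and contains a proper closed subset
    `G = 0` such that `deg f ≤ B max(2 g - 2 + s, 0)` for all `f` with image not in `G = 0`;
(3) the exceptional set is exactly the union of the exceptional lines (over `k`): for a form `H`, the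
    following are equivalent:
    (a) `H` vanishes on all exceptional lines;
    (b) `deg f ≤ B max(2 g - 2 + s, 0)` for all `f` with image not in `H = 0`;
    (c) there is a function `β` such that `deg f ≤ β(2 g - 2 + s)` for all `f` with image not in
        `H = 0`;
    (d) all closed subvarieties of `X` of positive dimension not contained in `H = 0` are of log
        general type.

Here `deg f` is the degree of the pullback of `O(1)` to the completion of the curve, which is the
product of the degree of the closure of the image and of the degree of the map to it (and `0` for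
constant `f`).

In (2) and (3), `K` is the function field of the subvariety, or a finite extension of it, and `y` is
its generic point, in homogeneous coordinates. A prime divisor `Q` over the closure of the subvariety
has its centre in `D` if `d_b min_i ord_Q (y_i) < ord_Q (F_b (y))` for some `b` not in `C`;
`pord Q y` is the minimum of the orders `ord_Q (y_i)`.
-/

set_option autoImplicit false

namespace Pool.Agent.Results.MP_70ba79_ag.BorderlinePairDegrees

open MvPolynomial FF Pool.Agent.W603.LV Pool.Agent.W603.PV Pool.Agent.W602.GT
  Pool.Agent.TH145.MG LinearAlgebra.Projectivization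

/-- The vector `f` of elements of the function field `L` is the vector of homogeneous coordinates of
a morphism to the complement of the hypersurfaces `F b = 0`, `b ∉ C`, in `F c = 0`, `c ∈ C`, from the
smooth projective curve with function field `L`, without the points in the finite set `S`. -/
def MapTo {k A : Type} [Field k] {n : ℕ} (F : A → MvPolynomial (Fin (n + 1)) k) (d : A → ℕ)
    (C : Finset A) {L : Type} [Field L] [Algebra k L] (S : Finset (Place k L))
    (f : Fin (n + 1) → L) : Prop :=
  f ≠ 0 ∧ (∀ c ∈ C, aeval f (F c) = 0) ∧ ∀ b, b ∉ C → aeval f (F b) ≠ 0 ∧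
    ∀ P ∉ S, P.ord (aeval f (F b)) = d b * pord P f

/-- A line, given by a vector space of dimension two, that is contained in `F c = 0` for all `c` in
`C`. -/
def IsLine {K A : Type} [Field K] {n : ℕ} (F : A → MvPolynomial (Fin (n + 1)) K) (C : Finset A)
    (W : Submodule K (Fin (n + 1) → K)) : Prop :=
  Module.finrank K W = 2 ∧ ∀ c ∈ C, ∀ v ∈ W, eval v (F c) = 0

/-- The points of the line where `F b = 0` for some `b ∉ C`. -/
def Boundary {K A : Type} [Field K] {n : ℕ} (F : A → MvPolynomial (Fin (n + 1)) K) (C : Finset A)
    (W : Submodule K (Fin (n + 1) → K)) : Set (ℙ K (Fin (n + 1) → K)) :=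
  {p | p.rep ∈ W ∧ ∃ b, b ∉ C ∧ eval p.rep (F b) = 0}

/-- A line contained in `F c = 0` for all `c` in `C` that meets the union of the hypersurfaces
`F b = 0`, `b ∉ C`, in at most two points. -/
def Exceptional {K A : Type} [Field K] {n : ℕ} (F : A → MvPolynomial (Fin (n + 1)) K)
    (C : Finset A) (W : Submodule K (Fin (n + 1) → K)) : Prop :=
  IsLine F C W ∧ (Boundary F C W).encard ≤ 2

/-- `K` is the function field, or a finite extension of the function field, of a closed subvariety
of `X` of dimension `w` with the generic point `y`. -/
def Subvariety {k A K : Type} [Field k] [Field K] [Algebra k K] {n : ℕ}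
    (F : A → MvPolynomial (Fin (n + 1)) k) (C : Finset A) (w : ℕ) (y : Fin (n + 1) → K) : Prop :=
  (y ≠ 0 ∧ (∀ c ∈ C, aeval y (F c) = 0) ∧ ∀ b, b ∉ C → aeval y (F b) ≠ 0) ∧
    Algebra.trdeg k K = w ∧ Algebra.IsAlgebraic (coords k y) K

/-- The subvariety is of log general type. -/
def LogGT {k A K : Type} [Field k] [Field K] [Algebra k K] {n : ℕ}
    (F : A → MvPolynomial (Fin (n + 1)) k) (d : A → ℕ) (C : Finset A) (w : ℕ)
    (y : Fin (n + 1) → K) : Prop :=
  LogGeneralType k K w fun Q : Place k K =>
    ∃ b, b ∉ C ∧ d b * pord Q y < Q.ord (aeval y (F b))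

/-- The forms are homogeneous, and their coefficients are, all together, algebraically independent
over `k0`. -/
def Generic (k0 : Type) {k A : Type} [Field k0] [Field k] [Algebra k0 k] {n : ℕ} (d : A → ℕ)
    (F : A → MvPolynomial (Fin (n + 1)) k) : Prop :=
  (∀ a, (F a).IsHomogeneous (d a)) ∧
    AlgebraicIndependent k0 fun p : (a : A) × {I : Fin (n + 1) →₀ ℕ // I.degree = d a} =>
      (F p.1).coeff p.2.1

/-- For all `f` with image not in `H = 0`, `deg f ≤ β(2 g - 2 + s)`. -/
def DegreeBound {k A : Type} [Field k] {n : ℕ} (F : A → MvPolynomial (Fin (n + 1)) k)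
    (d : A → ℕ) (C : Finset A) (H : MvPolynomial (Fin (n + 1)) k) (β : ℤ → ℝ) : Prop :=
  ∀ (L : Type) [Field L] [Algebra k L] [IsFF k L] (S : Finset (Place k L)) (f : Fin (n + 1) → L),
    MapTo F d C S f → aeval f H ≠ 0 → (pht k f : ℝ) ≤ β (canDeg k L + S.card)

/-- For all `f`, `deg f ≤ B max(2 g - 2 + s, 0)`, or the generic point is mapped to an exceptional
line. -/
def DegreeBoundOrLine {k A : Type} [Field k] {n : ℕ} (F : A → MvPolynomial (Fin (n + 1)) k)
    (d : A → ℕ) (C : Finset A) (B : ℕ) : Prop :=
  ∀ (L : Type) [Field L] [Algebra k L] [IsFF k L] (S : Finset (Place k L)) (f : Fin (n + 1) → L),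
    MapTo F d C S f → pht k f ≤ B * max (canDeg k L + S.card) 0 ∨
      ∃ W, Exceptional (fun a => map (algebraMap k (AlgebraicClosure L)) (F a)) C W ∧
        (fun j => algebraMap L (AlgebraicClosure L) (f j)) ∈ W

/-- All closed subvarieties of positive dimension not contained in `H = 0` are of log general
type. -/
def AllLogGT {k A : Type} [Field k] {n : ℕ} (F : A → MvPolynomial (Fin (n + 1)) k)
    (d : A → ℕ) (C : Finset A) (H : MvPolynomial (Fin (n + 1)) k) : Prop :=
  ∀ (K : Type) [Field K] [Algebra k K] (w : ℕ) (y : Fin (n + 1) → K), 0 < w →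
    Subvariety F C w y → aeval y H ≠ 0 → LogGT F d C w y

theorem result {n : ℕ} (hn : 1 ≤ n) {A : Type} [Fintype A] [DecidableEq A] {d : A → ℕ}
    (hd0 : ∀ a, 0 < d a)
    -- the equations are `F c = 0` for `c ∈ C`, and the other forms give the boundary
    (C : Finset A) (hC : C ≠ Finset.univ) (hd : 3 * n + 2 ≤ 2 * ∑ a, d a + C.card) :
    ∃ B : ℕ, ∀ (k0 k : Type) [Field k0] [Field k] [Algebra k0 k] [IsAlgClosed k] [CharZero k]
      (F : A → MvPolynomial (Fin (n + 1)) k), Generic k0 d F →
      -- (1) the degrees of the maps that are not to the exceptional lines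
      DegreeBoundOrLine F d C B ∧
      -- (2) closed subvarieties of large dimension: log general type, and degrees of maps
      (∀ (K : Type) [Field K] [Algebra k K] (w : ℕ) (y : Fin (n + 1) → K), 0 < w →
        2 * n + 2 ≤ ∑ a, d a + C.card + w → Subvariety F C w y → LogGT F d C w y ∧
        ∃ (G : MvPolynomial (Fin (n + 1)) k) (e : ℕ), G.IsHomogeneous e ∧ aeval y G ≠ 0 ∧
          DegreeBound F d C G fun m => B * max m 0) ∧
      -- (3) the exceptional set is exactly the union of the exceptional lines
      ∀ (H : MvPolynomial (Fin (n + 1)) k) (e : ℕ), H.IsHomogeneous e →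
        [∀ W, Exceptional F C W → ∀ v ∈ W, eval v H = 0,
          DegreeBound F d C H fun m => B * max m 0,
          ∃ β, DegreeBound F d C H β,
          AllLogGT F d C H].TFAE := by
  obtain ⟨B1, h1⟩ := Pool.Agent.H435.GB.generic_degreesG hn hd0 C hC hd
  obtain ⟨B2, h2⟩ := Pool.Agent.H435.GB.exact_degrees hn hd0 C hC hd
  have hmono : ∀ {x m : ℤ}, x ≤ B1 * max m 0 → x ≤ (B1 + B2 : ℕ) * max m 0 := fun {x m} h =>
    h.trans (mul_le_mul_of_nonneg_right (by push_cast; omega) (le_max_right _ _))
  have hcast : ∀ {x m : ℤ}, x ≤ (B1 + B2 : ℕ) * max m 0 ↔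
      (x : ℝ) ≤ ((B1 + B2 : ℕ) : ℝ) * (max m 0 : ℤ) := fun {x m} => by
    rw [← Int.cast_natCast (R := ℝ), ← Int.cast_mul, Int.cast_le]
  refine ⟨B1 + B2, ?_⟩
  intro k0 k _ _ _ _ _ F hFg
  obtain ⟨hF, hgen⟩ := hFg
  obtain ⟨h3, -, h4⟩ := h1 k0 k F hF hgen
  refine ⟨fun L _ _ _ S f hf => ?_, fun K _ _ w y hw hdw hy => ?_, fun H e hH => ?_⟩
  · rcases h3 L S f hf with h | h
    · exact Or.inl (hmono h)
    · exact Or.inr h
  · obtain ⟨h5, G, e, hG, hGy, h6⟩ := h4 K w y hw hdw hy.2.1 hy.1.1 hy.2.2 hy.1.2.1 hy.1.2.2
    exact ⟨h5, G, e, hG, hGy, fun L _ _ _ S f hf hfG => hcast.1 (hmono (h6 L S f hf hfG))⟩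
  · obtain ⟨h5, h6, h7⟩ := h2 (B1 + B2) (by omega) k0 k F hF hgen H e hH
    tfae_have 1 ↔ 2 := h5.trans ⟨fun h L _ _ _ S f hf hfH => hcast.1 (h L S f hf hfH),
      fun h L _ _ _ S f hf hfH => hcast.2 (h L S f hf hfH)⟩
    tfae_have 1 ↔ 3 := h6
    tfae_have 1 ↔ 4 := h7
    tfae_finish

end Pool.Agent.Results.MP_70ba79_ag.BorderlinePairDegrees
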