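import Pool.Agent.H441.AC.Pull
import Pool.Graph.R_pool_sql_team_seeded_63374d34.N254.SQ.Qdeg
import Pool.Graph.R_pool_sql_team_seeded_63374d34.N254.SQ.Hform

/-!
# Degrees of affine curves in varieties of log general type: systems of diagonal equations suffice

MP_70ba79_ag, Q1 (Lang–Vojta), over `k = ℂ`: the degrees of the affine curves in an affine variety of
log general type are bounded in terms of `χ = 2 g - 2 + s` outside of a proper closed subset. We
consider the following two types of systems of equations.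

* `Diagonal m D`, where `m ≥ 2` is fixed (for example `m = 2`) and `D` is a symmetric set of complex
  numbers which contains `1` and generates the vector space `ℂ` over `ℚ` (for example `D = ℂ`, or the
  set of all complex numbers of absolute value `1`): `Y : ∑ j, c_ij y_j ^ m = 0`, `i < k`, with
  coefficients in `D ∪ {0}`;
* `FourTerms`: intersections of diagonal quadrics with at most four terms, of the form
  `y_p ^ 2 + y_q ^ 2 = 2 y_s ^ 2 + 2 y_t ^ 2` or `y_p ^ 2 - y_q ^ 2 = a (y_s ^ 2 - y_t ^ 2)` (here `m = 2`).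

**Theorem 1.** Let `U = V(S) ∖ V(T)` be any quasi-projective variety over `ℂ` (any dimension, any
singularities; `S`, `T` sets of forms). There are a system `Y` of the given type in `P^N`, a set `I` of
indices and forms `φ_0, …, φ_N` of the same degree `e`, among them all monomials of this degree, so
that `φ : P^n → P^N` is a closed embedding, and a constant `B` such that `V(S) = φ⁻¹(Y)`,
`U = φ⁻¹(W)` for `W = Y ∖ {y_i = 0, i ∈ I}`, and

* every morphism from a smooth projective curve of genus `g` to `Y` has degree at most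
  `B max (2 g - 2, 0)`, or it is a morphism to one of the copies
  `{(ζ_0 φ_0(x) : … : ζ_N φ_N(x)) : x ∈ V(S)}`, `ζ_j ^ m = 1`, of `V(S)` (and then the degree is `e`
  times the degree of the morphism to `V(S)`, and the image meets the boundary at the same points);
* every closed subvariety of `Y` of positive dimension which is not of general type is contained in
  one of these copies (of log general type in `W` if and only if it is in `U`);
* the exceptional set of `W` for the degrees of curves is the union of the copies of the exceptional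
  set of `U`: a form `G` vanishes on the first one if and only if all the forms `G(ζ_j φ_j(x))` vanish
  on the second one.

If `U` is affine, that is `T = {H}`, then `I` consists of one index, so that `W` is affine, given by
equations `∑ j, c_ij y_j ^ m = b_i`.

**Theorem 2.** Q1 for all irreducible affine (quasi-projective, projective) varieties, smooth or not
(by resolution of singularities this is the same as for all smooth ones in the projective and the
quasi-projective case), is equivalent to the following statement: for no system `Y` of the given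
type and no coordinate hyperplane (no coordinate subspace `{y_i = 0, i ∈ I}`; the empty subspace) the
exceptional set of `W = Y ∖ {y_i = 0, i ∈ I}` for the degrees of curves, i.e. the smallest closed subset
outside of which the degrees of the curves in `W` are bounded in terms of `χ`, has a component of
positive dimension which is of log general type.

(Morphisms which are birational onto their image suffice by the formula of Riemann and Hurwitz.)

Proof. See `Pool/Agent/H441/UA`, `Pool/Agent/H441/FT`, `Pool/Agent/H441/AC`. The `m`-th powers of the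
coordinates of a point of `Y` over a field are the values of a linear functional on the `m`-th powers
of many linear forms in the monomials. For the curves a theorem of Büchi type is new: if the values
of a polynomial of degree `n` over the function field of a curve at `4 n + 1` constants are `m`-th
powers and it is not divisible by an `m`-th power, then the heights of the ratios of its values are
bounded by a multiple of the genus (norms of regular pluricanonical forms from the splitting field).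
The functionals of a sequence of counterexamples are combined in an ultraproduct of the function
fields, where the elements of bounded height are an algebraically closed subfield; there the theorem
on functionals shows that they are evaluations at points of the Veronese image of `X`.
-/

set_option autoImplicit false

namespace Pool.Agent.Results.MP_70ba79_ag.DiagonalSystemsSuffice

open MvPolynomial FF
open Pool.Agent.W602.GT (SubVar GeneralType)
open Pool.Agent.W603.LV (canDeg)
open Pool.Agent.W603.PV (pht)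
open Pool.Agent.N254.SQ (IsForm Eqs Component NotIn ValueNotIn LogGeneral OnDegreesQ)

/-- systems of equations in `P^N` -/
abbrev Equations (N k : ℕ) : Type := Fin k → MvPolynomial (Fin (N + 1)) ℂ

/-- the systems of diagonal equations `∑ j, c_j * y_j ^ m = 0` with coefficients in `D ∪ {0}` -/
def Diagonal (m : ℕ) (D : Set ℂ) (N k : ℕ) (Y : Equations N k) : Prop :=
  ∀ i, ∃ c : Fin (N + 1) → ℂ, (∀ j, c j = 0 ∨ c j ∈ D) ∧ Y i = ∑ j, C (c j) * X j ^ m

/-- the systems of equations `y_p ^ 2 + y_q ^ 2 = 2 y_s ^ 2 + 2 y_t ^ 2` or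
`y_p ^ 2 - y_q ^ 2 = a (y_s ^ 2 - y_t ^ 2)` -/
def FourTerms (N k : ℕ) (Y : Equations N k) : Prop :=
  ∀ i, ∃ p q s t : Fin (N + 1), Y i = X p ^ 2 + X q ^ 2 - 2 * (X s ^ 2 + X t ^ 2) ∨
    ∃ a : ℂ, Y i = X p ^ 2 - X q ^ 2 - C a * (X s ^ 2 - X t ^ 2)

/-- Q1 for the variety `V ∖ V(T)` of positive dimension, where `V` is the closed subset of `P^n` with
function field `L` and generic point `y` -/
def LangVojta {n : ℕ} (T : Set (MvPolynomial (Fin (n + 1)) ℂ)) (L : Type) [Field L] [Algebra ℂ L]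
    (w : ℕ) (y : Fin (n + 1) → L) : Prop :=
  1 ≤ w → SubVar (fun p : (∅ : Set (MvPolynomial (Fin (n + 1)) ℂ)) =>
      (p : MvPolynomial (Fin (n + 1)) ℂ)) L w y → NotIn T y → LogGeneral T L w y →
    ∃ G : MvPolynomial (Fin (n + 1)) ℂ, IsForm G ∧ aeval y G ≠ 0 ∧ OnDegreesQ (Eqs y) T G

/-- no component of positive dimension of the exceptional set of `V(Y) ∖ V(T)` for the degrees of
curves is of log general type -/
def NoComponent {N k : ℕ} (Y : Equations N k) (T : Set (MvPolynomial (Fin (N + 1)) ℂ)) : Prop :=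
  ∀ (L : Type) [Field L] [Algebra ℂ L] (w : ℕ) (y : Fin (N + 1) → L), 1 ≤ w →
    SubVar Y L w y → NotIn T y → LogGeneral T L w y → ¬ Component (OnDegreesQ (Set.range Y) T) y

/-- `φ` embeds `V(S)` in `V(Y)`, the inverse image of the closed set `V(T')` is `V(T)`; all
morphisms from curves of large degree to `V(Y)` and all closed subvarieties of positive dimension
which are not of general type come from `V(S)`. -/
structure Embeds (m : ℕ) {n N k : ℕ} (S T : Set (MvPolynomial (Fin (n + 1)) ℂ))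
    (φ : Fin (N + 1) → MvPolynomial (Fin (n + 1)) ℂ) (Y : Equations N k)
    (T' : Set (MvPolynomial (Fin (N + 1)) ℂ)) : Prop where
  mono : ∃ e, 1 ≤ e ∧ (∀ j, (φ j).IsHomogeneous e) ∧
    ∀ α : Fin (n + 1) → ℕ, ∑ i, α i = e → ∃ j, φ j = ∏ i, X i ^ α i
  points : ∀ x : Fin (n + 1) → ℂ, x ≠ 0 →
    ((∀ p ∈ S, eval x p = 0) ↔ ∀ i, eval (fun j => eval x (φ j)) (Y i) = 0)
  complement : ∀ x : Fin (n + 1) → ℂ, x ≠ 0 →
    ((∃ H ∈ T', eval (fun j => eval x (φ j)) H ≠ 0) ↔ ∃ H ∈ T, eval x H ≠ 0)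
  curves : ∃ B : ℕ, ∀ (E : Type) [Field E] [Algebra ℂ E] [IsFF ℂ E] (y : Fin (N + 1) → E), y ≠ 0 →
    (∀ i, aeval y (Y i) = 0) → pht ℂ y ≤ B * max (canDeg ℂ E) 0 ∨
      ∃ (ζ : Fin (N + 1) → ℂ) (x : Fin (n + 1) → E) (s : E), (∀ j, ζ j ^ m = 1) ∧ s ≠ 0 ∧
        x ≠ 0 ∧ (∀ p ∈ S, aeval x p = 0) ∧ ∀ j, y j = s * (algebraMap ℂ E (ζ j) * aeval x (φ j))
  curveCopies : ∃ e : ℕ, 1 ≤ e ∧ ∀ (E : Type) [Field E] [Algebra ℂ E] [IsFF ℂ E]
    (ζ : Fin (N + 1) → ℂ) (x : Fin (n + 1) → E) (s : E) (y : Fin (N + 1) → E),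
    (∀ j, ζ j ^ m = 1) → s ≠ 0 → x ≠ 0 → (∀ p ∈ S, aeval x p = 0) →
    (∀ j, y j = s * (algebraMap ℂ E (ζ j) * aeval x (φ j))) →
    y ≠ 0 ∧ (∀ i, aeval y (Y i) = 0) ∧ pht ℂ y = e * pht ℂ x ∧ (NotIn T' y ↔ NotIn T x) ∧
      ∀ P : Place ℂ E, ValueNotIn T' y P ↔ ValueNotIn T x P
  sub : ∀ (L : Type) [Field L] [Algebra ℂ L] (w : ℕ) (y : Fin (N + 1) → L), 1 ≤ w →
    SubVar Y L w y → GeneralType ℂ L w ∨
      ∃ (ζ : Fin (N + 1) → ℂ) (x : Fin (n + 1) → L) (s : L), (∀ j, ζ j ^ m = 1) ∧ s ≠ 0 ∧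
        SubVar (fun p : S => (p : MvPolynomial (Fin (n + 1)) ℂ)) L w x ∧
        ∀ j, y j = s * (algebraMap ℂ L (ζ j) * aeval x (φ j))
  copies : ∀ (L : Type) [Field L] [Algebra ℂ L] (w : ℕ) (ζ : Fin (N + 1) → ℂ)
    (x : Fin (n + 1) → L) (s : L) (y : Fin (N + 1) → L), (∀ j, ζ j ^ m = 1) → s ≠ 0 →
    SubVar (fun p : S => (p : MvPolynomial (Fin (n + 1)) ℂ)) L w x →
    (∀ j, y j = s * (algebraMap ℂ L (ζ j) * aeval x (φ j))) →
    SubVar Y L w y ∧ (NotIn T' y ↔ NotIn T x) ∧ (LogGeneral T' L w y ↔ LogGeneral T L w x)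
  exceptional : ∀ G : MvPolynomial (Fin (N + 1)) ℂ, IsForm G →
    (OnDegreesQ (Set.range Y) T' G ↔ ∀ ζ : Fin (N + 1) → ℂ, (∀ j, ζ j ^ m = 1) →
      OnDegreesQ S T (aeval (fun j => C (ζ j) * φ j) G))

/-- the theorems for the class `𝒴` of systems -/
structure Suffices (m : ℕ) (𝒴 : ∀ N k : ℕ, Equations N k → Prop) : Prop where
  theorem1 : ∀ (n : ℕ) (S : Set (MvPolynomial (Fin (n + 1)) ℂ)), (∀ p ∈ S, IsForm p) →
    (∀ T : Set (MvPolynomial (Fin (n + 1)) ℂ), (∀ H ∈ T, IsForm H) →
      ∃ (N k : ℕ) (φ : Fin (N + 1) → MvPolynomial (Fin (n + 1)) ℂ) (Y : Equations N k)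
        (I : Set (Fin (N + 1))), 𝒴 N k Y ∧ Embeds m S T φ Y (X '' I)) ∧
    (∀ (r : ℕ) (H : MvPolynomial (Fin (n + 1)) ℂ), 1 ≤ r → H.IsHomogeneous r →
      ∃ (N k : ℕ) (φ : Fin (N + 1) → MvPolynomial (Fin (n + 1)) ℂ) (Y : Equations N k)
        (i : Fin (N + 1)), 𝒴 N k Y ∧ Embeds m S {H} φ Y {X i})
  theorem2 :
    ((∀ (n r : ℕ) (H : MvPolynomial (Fin (n + 1)) ℂ), 1 ≤ r → H.IsHomogeneous r →
        ∀ (L : Type) [Field L] [Algebra ℂ L] (w : ℕ) (y : Fin (n + 1) → L),
          LangVojta {H} L w y) ↔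
      ∀ (N k : ℕ) (Y : Equations N k) (i : Fin (N + 1)), 𝒴 N k Y → NoComponent Y {X i}) ∧
    ((∀ (n : ℕ) (T : Set (MvPolynomial (Fin (n + 1)) ℂ)), (∀ H ∈ T, IsForm H) →
        ∀ (L : Type) [Field L] [Algebra ℂ L] (w : ℕ) (y : Fin (n + 1) → L),
          LangVojta T L w y) ↔
      ∀ (N k : ℕ) (Y : Equations N k) (I : Set (Fin (N + 1))), 𝒴 N k Y →
        NoComponent Y (X '' I)) ∧
    ((∀ (n : ℕ) (L : Type) [Field L] [Algebra ℂ L] (w : ℕ) (y : Fin (n + 1) → L),
        LangVojta {1} L w y) ↔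
      ∀ (N k : ℕ) (Y : Equations N k), 𝒴 N k Y → NoComponent Y {1})

section proof

open Pool.Agent.H441.UA (FEmb vals)
open Pool.Agent.H441.DQ (dform dform_hom)
open Pool.Agent.H441.FT (IsClass1 exists_fin Match match_coord emb_sub emb_copies emb_open
  Proper log_quasi log_affine log_projective)
open Pool.Agent.H441.AC (emb_alg emb_alg_copies exc_iff)

theorem embeds_of {m n N k : ℕ} (hm : m ≠ 0) {κ γ : Type}
    {S : Set (MvPolynomial (Fin (n + 1)) ℂ)} {S₀ : Finset (MvPolynomial (Fin (n + 1)) ℂ)}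
    {T : κ → MvPolynomial (Fin (n + 1)) ℂ} {G : γ → MvPolynomial (Fin (n + 1)) ℂ}
    {φ : Fin (N + 1) → MvPolynomial (Fin (n + 1)) ℂ} {c : Fin k → Fin (N + 1) → ℂ}
    {I J : Set (Fin (N + 1))} {T₁ : Set (MvPolynomial (Fin (n + 1)) ℂ)}
    {T₂ : Set (MvPolynomial (Fin (N + 1)) ℂ)}
    (hE : FEmb m (fun p : S₀ => (p : MvPolynomial (Fin (n + 1)) ℂ)) T G φ c I J)
    (hS : ∀ (Ω : Type) [Field Ω] [Algebra ℂ Ω] (x : Fin (n + 1) → Ω),
      (∀ p : S₀, aeval x (p : MvPolynomial (Fin (n + 1)) ℂ) = 0) ↔ ∀ p ∈ S, aeval x p = 0)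
    (hM : Match φ T₁ T₂) : Embeds m S T₁ φ (fun i => dform m (c i)) T₂ := by
  refine ⟨hE.mono, fun x hx => ?_, fun x hx => emb_open hM hx, emb_alg hE hS, ?_,
    fun L _ _ w y _ hy => emb_sub hE hS hy,
    fun L _ _ w ζ x s y hζ hs hx hyx => emb_copies hm hE hS hM hζ hs hx hyx,
    fun G hG => exc_iff Pool.Agent.H441.AC.pull_degrees Pool.Agent.H441.AC.pushAll_degrees hm hE
      hS hM hG⟩
  · have h1 := hS ℂ x
    exact h1.symm.trans (hE.pts ℂ (RingHom.id ℂ) x hx)
  · obtain ⟨e, he, h⟩ := emb_alg_copies hm hE hS hM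
    refine ⟨e, he, fun E _ _ _ ζ x s y hζ hs hx hxS hyx => ?_⟩
    obtain ⟨h1, h2, h3, h4, -, h5⟩ := h E ζ x s y hζ hs hx hxS hyx
    exact ⟨h1, h2, h3, h4, h5⟩

/-- the notions of the statement -/
theorem proper_iff {n : ℕ} {T : Set (MvPolynomial (Fin (n + 1)) ℂ)} :
    (∀ (L : Type) [Field L] [Algebra ℂ L] (w : ℕ) (y : Fin (n + 1) → L), LangVojta T L w y) ↔
      Proper (fun _ S T G => OnDegreesQ S T G) T := by
  constructor
  · intro h L _ _ w y hw hy hT hl
    exact h L w y hw ⟨hy.ne, fun p => absurd p.2 (Set.notMem_empty _), hy.gen, hy.dim⟩ hT hl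
  · intro h L _ _ w y hw hy hT hl
    exact h L w y hw ⟨hy.ne, hy.gen, hy.dim⟩ hT hl

theorem suffices_of {m : ℕ} {𝒴 : ∀ N k : ℕ, Equations N k → Prop} (h𝒴 : IsClass1 m 𝒴) :
    Suffices m 𝒴 := by
  have hexc := Pool.Agent.N254.SQ.t_qdeg Pool.Agent.N254.SQ.t_cent Pool.Agent.N254.SQ.t_hform
  have hm0 : m ≠ 0 := by
    have := h𝒴.pos
    omega
  refine ⟨fun n S hS => ⟨fun T hT => ?_, fun r H hr hH => ?_⟩, ?_, ?_, ?_⟩
  · obtain ⟨S₀, hS₀, hSS⟩ := exists_fin S
    obtain ⟨T₀, hT₀, hTT⟩ := exists_fin T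
    obtain ⟨N, k, φ, c, I, J, hY, hE⟩ := h𝒴.emb n S₀ T₀ Empty
      (fun p : S₀ => (p : MvPolynomial (Fin (n + 1)) ℂ))
      (fun p : T₀ => (p : MvPolynomial (Fin (n + 1)) ℂ)) (fun e : Empty => e.elim)
      (fun p => hS p (hS₀ p.2)) (fun p => hT p (hT₀ p.2)) (fun e => e.elim)
    refine ⟨N, k, φ, _, I, hY, embeds_of hm0 hE hSS (match_coord hE hT fun Ω _ _ x => ?_)⟩
    have h1 := hTT Ω x
    rw [← not_iff_not]
    push Not
    exact h1
  · obtain ⟨S₀, hS₀, hSS⟩ := exists_fin S
    obtain ⟨N, k, φ, c, i, J, hY, hE⟩ := h𝒴.emb1 n S₀ Empty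
      (fun p : S₀ => (p : MvPolynomial (Fin (n + 1)) ℂ)) (fun e : Empty => e.elim)
      (fun p => hS p (hS₀ p.2)) (fun e => e.elim) H r hr hH
    have hM : Match φ {H} (X '' {i}) := match_coord hE (fun G hG => by
      rw [Set.mem_singleton_iff] at hG
      rw [hG]
      exact ⟨r, hH⟩) fun Ω _ _ x => by simp
    rw [Set.image_singleton] at hM
    exact ⟨N, k, φ, _, i, hY, embeds_of hm0 hE hSS hM⟩
  · simp only [proper_iff]
    exact log_affine hexc Pool.Agent.H441.AC.push_degrees h𝒴
  · simp only [proper_iff]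
    exact log_quasi hexc Pool.Agent.H441.AC.push_degrees h𝒴.toIsClass
  · simp only [proper_iff]
    exact log_projective hexc Pool.Agent.H441.AC.push_degrees h𝒴.toIsClass

end proof

theorem result :
    (∀ m : ℕ, 2 ≤ m → ∀ D : Set ℂ, 1 ∈ D → (∀ x ∈ D, -x ∈ D) → Submodule.span ℚ D = ⊤ →
      Suffices m (Diagonal m D)) ∧
    Suffices 2 FourTerms :=
  ⟨fun _ hm _ hD1 hD2 hD3 => suffices_of (Pool.Agent.H441.FT.isClass1_diagonal hm hD1 hD2 hD3),
    suffices_of Pool.Agent.H441.FT.isClass1_four⟩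

end Pool.Agent.Results.MP_70ba79_ag.DiagonalSystemsSuffice
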