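import Mathlib
import Pool.Agent.H917.M.X9

/-!
MP_70ba79_ag, Q1: the Lang-Vojta conjecture for affine curves in varieties of log general type, for
quasi-projective varieties `X` with a compactification such that some symmetric power of the
logarithmic cotangent bundle is generated by global sections, and for all closed subvarieties of
`X`.

The boundary `D` of the projective variety `X̄` with the ideal `p` is given by boundary coordinates:
in the chart where the `j`-th coordinate is not zero, `D` is the union of the hyperplane sections
given by the coordinates in `B j` (`BdC p B`), and `X = X̄ \ D` is the set of the points `x` with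
`OffB B x`. Every pair (smooth projective variety, divisor with simple normal crossings) has such
an embedding in a projective space, in which each component of `D` is, in each chart, the divisor
of one of the coordinates: take line bundles `A` and `A(-D_i)`, all very ample, with generating
sections `a_j` (among them all `s_i t^(i)_c`, where `s_i` is the section of `O(D_i)` with the
divisor `D_i`) and `t^(i)_c`, and the coordinates `a_j * ∏_i t^(i)_(c_i)`.

A smooth curve is given by its function field `F` (`IsFF ℂ F`) and the finite set `T` of the places
(the points of the smooth projective model) which do not belong to the curve; `canDeg ℂ F = 2 g - 2`;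
`pht ℂ x` is the degree of the line bundle `f^* O(1)` for the morphism `f` with the homogeneous
coordinates `x`, which is the degree of the image of `f` times the degree of `f` onto its image.
-/

set_option autoImplicit false

namespace Pool.Agent.Results.MP_70ba79_ag.GenPowersAffineCurves

open MvPolynomial FF Pool.Agent.H917 Pool.Agent.H917.Lg Pool.Agent.H917.Mg
open Pool.Agent.W602.GT (LogGeneralType)

/-- Let `p` be the homogeneous ideal of a projective variety `X̄`, with the boundary `D` given by
the boundary coordinates `B`, such that the `m`-th symmetric power of the logarithmic cotangent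
sheaf of `(X̄, D)` is generated by global sections, for some `m ≥ 1`. Let `V̄` be an irreducible
closed subvariety of `X̄` which is not contained in `D` (such as `X̄` itself, if it is irreducible),
with the homogeneous prime ideal `q`, the function field `K` of transcendence degree `w` and the
generic point `y`, and `V = V̄ \ D`. If `V` is of log general type, then there are a proper closed
subset `G = 0` and a constant `b` such that the degrees of the morphisms from all smooth curves `C`
to `V` (curves of genus `g` without `s` points) with image not contained in `G = 0` are at most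
`b * max (2 g - 2 + s) 0`.

If the boundary of `V` is a hypersurface section `Q = 0` of `V̄` (so `V` is affine; for example if `D`
is a hypersurface section of `X̄`), then the following are equivalent:
`V` is of log general type; there are a proper closed subset and a constant as above; there are a
proper closed subset and a function `β` such that the degrees of the morphisms from the smooth
affine curves `C` to `V` with image not contained in the subset are at most `β (2 g - 2 + s)`. -/
theorem result {n : ℕ} (p : Ideal (MvPolynomial (Fin (n + 1)) ℂ))
    (B : Fin (n + 1) → Finset (Fin (n + 1))) (hB : BdC p B) {m : ℕ} (hm : 1 ≤ m)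
    (hg : BGenerated p B m)
    (q : Ideal (MvPolynomial (Fin (n + 1)) ℂ)) (hqp : q.IsPrime)
    (hq : ∀ H ∈ q, ∀ d, homogeneousComponent d H ∈ q) (hpq : p ≤ q) (K : Type) [Field K]
    [Algebra ℂ K] (w : ℕ) (y : Fin (n + 1) → K) (hy : SubVarB q B K w y)
    (hf : ∀ H : MvPolynomial (Fin (n + 1)) ℂ, (∃ d, H.IsHomogeneous d) → aeval y H = 0 → H ∈ q) :
    (LogGeneralType ℂ K w (BdP B y) →
      ∃ G : MvPolynomial (Fin (n + 1)) ℂ, (∃ d, G.IsHomogeneous d) ∧ G ∉ q ∧ LinBoundB q B G) ∧
    (∀ (Q : MvPolynomial (Fin (n + 1)) ℂ) (d : ℕ), 1 ≤ d → Q.IsHomogeneous d → Bdry q Q B →
      List.TFAE [LogGeneralType ℂ K w (BdP B y),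
        ∃ G : MvPolynomial (Fin (n + 1)) ℂ, (∃ d, G.IsHomogeneous d) ∧ G ∉ q ∧ LinBoundB q B G,
        ∃ G : MvPolynomial (Fin (n + 1)) ℂ, (∃ d, G.IsHomogeneous d) ∧ G ∉ q ∧
          FunBoundB q B G]) := by
  have h1 : LogGeneralType ℂ K w (BdP B y) →
      ∃ G : MvPolynomial (Fin (n + 1)) ℂ, (∃ d, G.IsHomogeneous d) ∧ G ∉ q ∧ LinBoundB q B G :=
    linBoundB_of_lgt hqp hq (hB.res hpq) hm (hg.res hpq) hy hf
  refine ⟨h1, fun Q d hd hQ hQB => ?_⟩
  tfae_have 1 → 2 := h1
  tfae_have 2 → 3 := by
    rintro ⟨G, hG, hGq, h⟩
    exact ⟨G, hG, hGq, h.funBound⟩
  tfae_have 3 → 1 := by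
    rintro ⟨G, hG, hGq, h⟩
    exact lgt_of_bounded hqp hq hd hQ hQB hm (hg.res hpq) hy hf hG hGq
      (Or.inl h.bounded)
  tfae_finish

end Pool.Agent.Results.MP_70ba79_ag.GenPowersAffineCurves
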