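import Pool.Agent.H910.Cf.Stm

/-!
# The Lang-Vojta conjecture for affine curves in varieties over the space of the binary forms

Let `k` be an algebraically closed field of characteristic zero. A quasi-projective variety `X ∖ D`
is given by the generic point `x` (homogeneous coordinates in the function field `K`) of a projective
variety `X`, of arbitrary dimension and with arbitrary singularities, and finitely many forms `Q i`
which define the proper closed subset `D` (`Pair`). A map `f` from a smooth projective curve to `X` is
a point with coordinates in the function field `E` of the curve (`OnVar`), its degree is `pht k f`,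
and `Meets Q f P` says that the point `P` of the curve is mapped to `D`; so, for a morphism from a
smooth curve `C` to `X ∖ D`, the number `N` of the points of `f ⁻¹ (D)` is at most the number of the
points at infinity of `C`, and `2 g - 2 + N ≤ χ(C)`.

`P^(n + 1)` is the space of the binary forms `y` of degree `n + 1`. A rational map `y` from `X` to this
space, with image not contained in the discriminant hypersurface, is *ramified* (`Ram`) if there are
distinct numbers `a i` and weights `μ i ≤ M`, `c i` and `cD` with
`(n + 1) (∑ c i + 2 n cD) + 2 M < ∑ μ i`, such that at all places at which a point of `X` (with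
coordinates in a field extension of `k`, outside of a proper closed subset) does not meet `D`, the
orders of contact `s i` of its image with the hyperplanes of the forms which vanish at `(1 : a i)` and
`t` with the discriminant hypersurface satisfy one of the following conditions: `t = 0` and each
`s i` is zero or at least `M / (M - μ i)`; or `∑ c i s i + cD t ≥ M`.

**Theorem.** (I) If there is a generically finite ramified map from `X` to a space of binary forms,
then there is a proper closed subset `G = 0` of `X` such that `X ∖ D` and all its closed
subvarieties of positive dimension not in `G = 0` are of log general type, and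
`deg f ≤ A max (2 g - 2 + N, 0)` for all maps `f` from curves whose image is not in `D` or `G = 0`
(`DegreesOff`); so the degree of every morphism from a smooth curve `C` to `X ∖ D`, with image not in
`G = 0`, is at most `A max (χ(C), 0)`.

(II) Suppose that there are finitely many maps of pairs `φ l` from `(X, D)` to pairs `(Y l, D' l)`
for which the degrees are bounded by `A (max (2 g - 2, 0) + N)` (`LinearOff`), and finitely many
ramified maps `z l`. If `X ∖ D` is of log general type and `dim X ≤ dim Z + 1`, where `Z` is the
image of `X` in the product, or if `dim X = dim Z`, or if the geometric generic fibre of `X ⇢ Z` is a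
curve which is hyperbolic after removing the points of `D`, then the degrees for `(X, D)` are
bounded in the same way. (III) So this is true for all members of the smallest class of pairs which
is closed under this construction (`Tower`), for instance if `X ∖ D` is of log general type and has
a ramified map to a space of binary forms whose fibres have dimension at most one.

(IV) A numerical criterion for ramified maps, for instance if products of powers of the values at the
points `(1 : a i)` and of the discriminant of `y` are powers in `K` up to constants.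

(V) Let `a i`, `i ≤ r`, be distinct numbers, `n + 1 ≤ r` and `r + 1 < m (r - 1)`. Let
`Y(x) = (Y 0 (x), ..., Y (n + 1) (x))` be forms of degree `m` and let `V` be the quasi-projective
variety of the points `x` of `P^r` with `Y(x) (1 : a i) = x i ^ m` for all `i`, for which the
discriminant of the binary form `Y(x)` is not zero. Then `G = ∏ x i` is sufficient: all closed
subvarieties of positive dimension of `V`, not contained in a coordinate hyperplane, are of log
general type, and `(m (r - 1) - (r + 1)) deg f ≤ (n + 1) max (2 g - 2 + N, 0)`. For `r = n + 1` there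
is for each `m` such a `Y` with `V = P^(n + 1) ∖ (Disc (Y(x)) = 0)`, the complement of a hypersurface
of degree `2 n m`.

`coords`, `LogGeneralType` : `Pool/Graph/R_seed8/W602/GT/`; `pht`, `canDeg` : degree of a map and
`2 g - 2`; `Meets`, `PairMap`, `LogHypFibres`, `cuspFun`, `LinearOff` : `Pool/Agent/H916/`;
`hyp`, `dsc`, `contact` : `Pool/Agent/H910/Vf/Defs.lean`; `Ram` : `Pool/Agent/H910/Cf/Defs.lean`;
`Root`, `Wts` : `Pool/Agent/H910/Cf/Crit.lean`; `Tower` : `Pool/Agent/H910/Cf/Cls.lean`; `Pair`,
`DegreesOff`, `Covering`, `OnCovering` : `Pool/Agent/H910/Cf/Stm.lean`.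
-/

set_option autoImplicit false
set_option linter.overlappingInstances false

open FF Pool.Agent.H916 Pool.Agent.H910.Cf MvPolynomial
open Pool.Agent.W602.GT (coords IsForm LogGeneralType)
open Pool.Agent.W603.PV (pht)
open Pool.Agent.W603.LV (canDeg)
open Pool.Agent.H910.Vf (hyp dsc)

namespace Pool.Agent.Results.MP_70ba79_ag.MapsToBinaryForms

/-- **Bounds for the degrees of curves in varieties with ramified maps to the space of the binary
forms.** See the explanation at the beginning of the file. -/
theorem result {k K : Type} [Field k] [IsAlgClosed k] [CharZero k] [Field K] [Algebra k K] {M : ℕ}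
    {x : Fin (M + 1) → K} {ι : Type} {Q : ι → MvPolynomial (Fin (M + 1)) k} (hp : Pair x Q) :
    (∀ (n : ℕ) (y : Fin (n + 2) → K), Ram k x Q y → Algebra.IsAlgebraic (coords k y) K →
      DegreesOff k x Q) ∧
    (∀ (r r' : ℕ) (B : Fin r → Type) [∀ l, Field (B l)] [∀ l, Algebra k (B l)] (N : Fin r → ℕ)
      (y : ∀ l, Fin (N l + 1) → B l) (κ : Fin r → Type)
      (Q' : ∀ l, κ l → MvPolynomial (Fin (N l + 1)) k) (φ : ∀ l, B l →ₐ[k] K) (n : Fin r' → ℕ)
      (z : ∀ l, Fin (n l + 2) → K), (∀ l, Pair (y l) (Q' l)) →
      (∀ l, PairMap x Q (fun j => φ l (y l j)) (Q' l)) → (∀ l, Ram k x Q (z l)) →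
      (((∃ w, LogGeneralType k K w fun P => Meets Q x P) ∧ Algebra.trdeg k K ≤
          Algebra.trdeg k ↥((⨆ l, (φ l).fieldRange) ⊔ ⨆ l, coords k (z l)) + 1) ∨
        LogHypFibres ((⨆ l, (φ l).fieldRange) ⊔ ⨆ l, coords k (z l)).toSubfield
          (cuspFun x Q)) →
      ((∀ l, LinearOff k (y l) (Q' l)) → LinearOff k x Q) ∧
      ((∀ l, Tower k (y l) (Q' l)) → Tower k x Q)) ∧
    (Tower k x Q → LinearOff k x Q) ∧
    (∀ (n q r : ℕ) (y : Fin (n + 2) → K) (a : Fin q → k) (m : Fin r → ℕ) (c : Fin r → Fin q → ℕ)
      (d : Fin r → ℕ) (J : Set (Fin q)) (b : Prop), Function.Injective a → Gen a y →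
      (∀ l, Root a y (m l) (c l) (d l)) →
      (∀ i ∈ J, PairMap x Q y fun _ : Unit => hyp k (n + 1) 1 (a i)) →
      (b → PairMap x Q y fun _ : Unit => dsc k n) →
      (Wts n fun s t => (∀ l, m l ∣ ∑ i, c l i * s i + d l * t) ∧ (∀ i ∈ J, s i = 0) ∧
        (b → t = 0)) → Ram k x Q y) ∧
    (∀ (n r m : ℕ) (a : Fin (r + 1) → k) (Y : Fin (n + 2) → MvPolynomial (Fin (r + 1)) k),
      Covering m a Y → n + 1 ≤ r → r + 1 < m * (r - 1) →
      (∀ (E : Type) [Field E] [Algebra k E] (f : Fin (r + 1) → E) (t : ℕ), OnCovering m a Y f →
        coords k f = ⊤ → Algebra.trdeg k E = t → 1 ≤ t →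
          LogGeneralType k E t fun P => Meets (fun _ : Unit => aeval Y (dsc k n)) f P) ∧
      ∀ (E : Type) [Field E] [Algebra k E] [IsFF k E] (f : Fin (r + 1) → E), OnCovering m a Y f →
        ((m : ℤ) * (r - 1) - (r + 1)) * pht k f ≤ (n + 1) * max (canDeg k E +
          {P : Place k E | Meets (fun _ : Unit => aeval Y (dsc k n)) f P}.ncard) 0) ∧
    (∀ (n m : ℕ) (a : Fin (n + 2) → k), Function.Injective a →
      ∃ Y : Fin (n + 2) → MvPolynomial (Fin (n + 2)) k, Covering m a Y ∧
        ∀ i, aeval Y (hyp k (n + 1) 1 (a i)) = X i ^ m) := by
  refine ⟨fun n y h halg => degreesOff hp h halg, fun r r' B _ _ N y κ Q' φ n z hY hmap hz h =>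
    ascend_all hp hY φ hmap hz h, fun h => h.linear,
    fun n q r y a m c d J b ha hy hroot hJ hb hw => ram_criterion hp ha hy hroot J hJ b hb hw,
    fun n r m a Y hY hr hm => ⟨fun E _ _ f t hf hgen htr ht => covering_lgt hY hr hm hf hgen htr ht,
      fun E _ _ _ f hf => covering_curve hY hr ?_ hf⟩, fun n m a ha => exists_covering m ha⟩
  by_contra h
  have : m = 0 := by omega
  rw [this, zero_mul] at hm
  omega

end Pool.Agent.Results.MP_70ba79_ag.MapsToBinaryForms
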